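import Pool.Agent.H79.BN.Targets2
import Pool.Agent.H93.BL.Basic

/-!
# Non-separation, row F7: the rhombi with an angle between `2π/7` and `π/3`
-/

namespace Pool.Agent.H62.BN

open Pool.Agent.H93.BL Pool.Agent.H79.BN

theorem angle_of (a b c : ℂ) (r s θ : ℝ) (hr : 0 < r) (hs : 0 < s)
    (h1 : (a.re - b.re) ^ 2 + (a.im - b.im) ^ 2 = r ^ 2)
    (h2 : (c.re - b.re) ^ 2 + (c.im - b.im) ^ 2 = s ^ 2)
    (h3 : (a.re - b.re) * (c.re - b.re) + (a.im - b.im) * (c.im - b.im) = r * s * Real.cos θ)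
    (h4 : 0 ≤ θ) (h5 : θ ≤ Real.pi) : EuclideanGeometry.angle a b c = θ := by
  unfold EuclideanGeometry.angle InnerProductGeometry.angle
  have e1 : ‖a -ᵥ b‖ = r := by
    rw [vsub_eq_sub, ← Real.sqrt_sq hr.le, ← h1, Complex.norm_eq_sqrt_sq_add_sq]
    simp
  have e2 : ‖c -ᵥ b‖ = s := by
    rw [vsub_eq_sub, ← Real.sqrt_sq hs.le, ← h2, Complex.norm_eq_sqrt_sq_add_sq]
    simp
  have e3 : inner ℝ (a -ᵥ b) (c -ᵥ b) = r * s * Real.cos θ := by
    rw [← h3, vsub_eq_sub, vsub_eq_sub, Complex.inner]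
    simp
    ring
  rw [e1, e2, e3, mul_div_cancel_left₀ _ (by positivity), Real.arccos_cos h4 h5]

theorem f7 : T_F7 := by
  intro α hα1 hα2
  have hpi := Real.pi_pos
  set C := Real.cos (α / 2) with hC
  set S := Real.sin (α / 2) with hS
  have hCpos : 0 < C := Real.cos_pos_of_mem_Ioo ⟨by linarith, by linarith⟩
  have hSpos : 0 < S := Real.sin_pos_of_pos_of_lt_pi (by linarith) (by linarith)
  have hCS : C ^ 2 + S ^ 2 = 1 := Real.cos_sq_add_sin_sq _
  have hcos : Real.cos α = C ^ 2 - S ^ 2 := by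
    have : α = 2 * (α / 2) := by ring
    rw [this, Real.cos_two_mul', ← hC, ← hS]
  have hcos' : Real.cos (Real.pi - α) = S ^ 2 - C ^ 2 := by
    rw [Real.cos_pi_sub, hcos]; ring
  have hcosh : Real.cos ((Real.pi - α) / 2) = S := by
    have : (Real.pi - α) / 2 = Real.pi / 2 - α / 2 := by ring
    rw [this, Real.cos_pi_div_two_sub]
  have w0 : rhomb α 0 = -((C : ℝ) : ℂ) := rfl
  have w1 : rhomb α 1 = -((S : ℝ) : ℂ) * Complex.I := rfl
  have w2 : rhomb α 2 = ((C : ℝ) : ℂ) := rfl
  have w3 : rhomb α 3 = ((S : ℝ) : ℂ) * Complex.I := rfl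
  have hCSpos := mul_pos hCpos hSpos
  have key : ∀ i : Fin 4, (ang (rhomb α) i = Real.pi - α ∧
      EuclideanGeometry.angle (rhomb α i) (rhomb α (i + 1)) (rhomb α (i + 3)) = (Real.pi - α) / 2 ∧
      EuclideanGeometry.angle (rhomb α (i + 2)) (rhomb α (i + 1)) (rhomb α (i + 3)) =
        (Real.pi - α) / 2) ∨ (ang (rhomb α) i = α ∧
      EuclideanGeometry.angle (rhomb α i) (rhomb α (i + 1)) (rhomb α (i + 3)) = α / 2 ∧
      EuclideanGeometry.angle (rhomb α (i + 2)) (rhomb α (i + 1)) (rhomb α (i + 3)) =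
        α / 2) := by
    intro i
    have i1 : (1 : Fin 4) + 1 = 2 := rfl
    have i2 : (1 : Fin 4) + 2 = 3 := rfl
    have i3 : (1 : Fin 4) + 3 = 0 := rfl
    have i4 : (2 : Fin 4) + 1 = 3 := rfl
    have i5 : (2 : Fin 4) + 2 = 0 := rfl
    have i6 : (2 : Fin 4) + 3 = 1 := rfl
    have i7 : (3 : Fin 4) + 1 = 0 := rfl
    have i8 : (3 : Fin 4) + 2 = 1 := rfl
    have i9 : (3 : Fin 4) + 3 = 2 := rfl
    obtain h | h | h | h : i = 0 ∨ i = 1 ∨ i = 2 ∨ i = 3 := by
      fin_cases i <;> simp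
    · subst h
      left
      unfold ang
      rw [zero_add, zero_add, zero_add, w0, w1, w2, w3]
      refine ⟨angle_of _ _ _ 1 1 _ one_pos one_pos ?_ ?_ ?_ (by linarith) (by linarith),
        angle_of _ _ _ 1 (2 * S) _ one_pos (by linarith) ?_ ?_ ?_ (by linarith) (by linarith),
        angle_of _ _ _ 1 (2 * S) _ one_pos (by linarith) ?_ ?_ ?_ (by linarith) (by linarith)⟩ <;>
      · simp [hcos', hcosh]
        try first | linarith | (ring_nf; linarith) | nlinarith
    · subst h
      right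
      unfold ang
      rw [i1, i2, i3, w0, w1, w2, w3]
      refine ⟨angle_of _ _ _ 1 1 _ one_pos one_pos ?_ ?_ ?_ (by linarith) (by linarith),
        angle_of _ _ _ 1 (2 * C) _ one_pos (by linarith) ?_ ?_ ?_ (by linarith) (by linarith),
        angle_of _ _ _ 1 (2 * C) _ one_pos (by linarith) ?_ ?_ ?_ (by linarith) (by linarith)⟩ <;>
      · simp [hcos, ← hC]
        try first | linarith | (ring_nf; linarith) | nlinarith
    · subst h
      left
      unfold ang
      rw [i4, i5, i6, w0, w1, w2, w3]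
      refine ⟨angle_of _ _ _ 1 1 _ one_pos one_pos ?_ ?_ ?_ (by linarith) (by linarith),
        angle_of _ _ _ 1 (2 * S) _ one_pos (by linarith) ?_ ?_ ?_ (by linarith) (by linarith),
        angle_of _ _ _ 1 (2 * S) _ one_pos (by linarith) ?_ ?_ ?_ (by linarith) (by linarith)⟩ <;>
      · simp [hcos', hcosh]
        try first | linarith | (ring_nf; linarith) | nlinarith
    · subst h
      right
      unfold ang
      rw [i7, i8, i9, w0, w1, w2, w3]
      refine ⟨angle_of _ _ _ 1 1 _ one_pos one_pos ?_ ?_ ?_ (by linarith) (by linarith),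
        angle_of _ _ _ 1 (2 * C) _ one_pos (by linarith) ?_ ?_ ?_ (by linarith) (by linarith),
        angle_of _ _ _ 1 (2 * C) _ one_pos (by linarith) ?_ ?_ ?_ (by linarith) (by linarith)⟩ <;>
      · simp [hcos, ← hC]
        try first | linarith | (ring_nf; linarith) | nlinarith
  refine ⟨?_, ?_⟩
  · intro i j hij hij'
    have i1 : (1 : Fin 4) + 1 = 2 := rfl
    have i4 : (2 : Fin 4) + 1 = 3 := rfl
    have i7 : (3 : Fin 4) + 1 = 0 := rfl
    obtain h | h | h | h : i = 0 ∨ i = 1 ∨ i = 2 ∨ i = 3 := by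
      fin_cases i <;> simp
    all_goals
      subst h
      obtain h | h | h | h : j = 0 ∨ j = 1 ∨ j = 2 ∨ j = 3 := by
        fin_cases j <;> simp
      all_goals
        subst h
        first
          | (exfalso; revert hij; decide)
          | (exfalso; revert hij'; decide)
          | (simp only [cr, ed, zero_add, i1, i4, i7, w0, w1, w2, w3]
             simp
             nlinarith)
  · intro i c hc
    rcases key i with ⟨h1, h2, h3⟩ | ⟨h1, h2, h3⟩
    · have hc' : c = (Real.pi - α) / 2 := by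
        rcases hc with h | h
        · rw [h, h2]
        · rw [h, h3]
      refine ⟨1, ?_⟩
      have e : Real.pi - 2 * ((1 : ℕ) : ℝ) * ang (rhomb α) i = -(Real.pi - 2 * α) := by
        rw [h1]; push_cast; ring
      rw [e, abs_neg, abs_of_pos (by linarith), h1, hc']
      constructor <;> linarith
    · have hc' : c = α / 2 := by
        rcases hc with h | h
        · rw [h, h2]
        · rw [h, h3]
      refine ⟨2, ?_⟩
      have e : Real.pi - 2 * ((2 : ℕ) : ℝ) * ang (rhomb α) i = -(4 * α - Real.pi) := by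
        rw [h1]; push_cast; ring
      rw [e, abs_neg, abs_of_pos (by linarith), h1, hc']
      constructor <;> linarith

end Pool.Agent.H62.BN
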