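import Pool.Agent.H79.BN.Targets
import Pool.Agent.H93.BL.Basic

/-!
# Directions parallel to a side (row RP)
-/

open MeasureTheory Set Filter Topology Pool.Agent.H93.BL Pool.Agent.H79.BN

namespace Pool.Agent.H62.BN

theorem rf_smul (e v : ℂ) (c : ℝ) : rf e ((c : ℂ) * v) = (c : ℂ) * rf e v := by
  unfold rf
  rw [map_mul, Complex.conj_ofReal]
  ring

theorem rf_self (e : ℂ) : rf e e = ((‖e‖ ^ 2 : ℝ) : ℂ) * e := by
  unfold rf
  have h : e * (starRingEnd ℂ) e = ((‖e‖ ^ 2 : ℝ) : ℂ) := by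
    rw [Complex.mul_conj, Complex.normSq_eq_norm_sq]
  rw [← h]
  ring

theorem no_return {ι : Type} (P : Polygon ι) {u v : ι × ℝ × ℝ} (h : P.Step u v)
    (h1 : u.1 = v.1) : False := by
  obtain ⟨hu, hv, t, -, -, -, hd⟩ := h
  have h2 := P.cos_pos_of_phase hu
  have h3 := P.cos_pos_of_phase hv
  have h4 := P.ip_dir_n v
  rw [hd, P.ip_refl_n, ← h1, P.ip_dir_n u] at h4
  linarith

theorem exists_const {n : ℕ} [NeZero n] (F : Ultrafilter ℕ) (g : ℕ → Fin n) :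
    ∃ a, ∀ᶠ k in (F : Filter ℕ), g k = a := by
  obtain ⟨a, ha⟩ := Ultrafilter.eq_pure_of_finite (F.map g)
  refine ⟨a, ?_⟩
  have h1 : {x : Fin n | x = a} ∈ F.map g := by
    rw [ha]
    exact Ultrafilter.mem_pure.mpr rfl
  exact h1

theorem key (h7 : T_V7) (h8 : T_V8) (h9 : T_V9) {n : ℕ} [NeZero n] (w : Fin n → ℂ)
    (E : Set (Fin n)) (hn : 3 ≤ n) (hw : ConvPos w) (hed : ∀ i, ed w i ≠ 0) (X d W : ℂ)
    (σ b : Fin n) (κ : ℝ) (hκ : κ ≠ 0) (hd : d = (κ : ℂ) * ed w σ)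
    (hX : ∀ (k : Fin n) (τ : ℝ), X + (τ : ℂ) * d ∈ segment ℝ (w k) (w (k + 1)) →
      cr (ed w k) d ≤ 0 → k = σ ∨ (k = b ∧ X + (τ : ℂ) * d = W))
    (hb : b ∈ E ∨ Ab w E W (rf (ed w b) d)) : AbL w E X d := by
  intro τ
  by_contra hcon
  have hd0 : d ≠ 0 := by
    rw [hd]
    exact mul_ne_zero (by exact_mod_cast hκ) (hed σ)
  have hnd : (‖d‖ : ℂ) ≠ 0 := by
    exact_mod_cast (norm_ne_zero_iff.mpr hd0)
  have hndp : 0 < ‖d‖ := norm_pos_iff.mpr hd0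
  obtain ⟨P, z, hcl, hs, hpos, hdir⟩ := h8 n w E _ d hcon
  set e : ℂ := d / (‖d‖ : ℂ) with he
  have hde : d = (‖d‖ : ℂ) * e := by
    rw [he]
    field_simp
  let F : Ultrafilter ℕ := hyperfilter ℕ
  have hF : (F : Filter ℕ) ≤ atTop := Nat.hyperfilter_le_atTop
  have hclF : ∀ δ > (0 : ℝ), ∀ᶠ k in (F : Filter ℕ), Close w δ (P k) :=
    fun δ hδ => hF (hcl δ hδ)
  choose f hf0 hf using hs
  obtain ⟨k1, hk1⟩ := exists_const F (fun k => (f k 1).1)
  obtain ⟨k2, hk2⟩ := exists_const F (fun k => (f k 2).1)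
  have hsurv : ∀ m k, Surv (P k) E (f k m) := fun m k =>
    ⟨fun i => f k (i + m), by simp, fun i => by
      have := hf k (i + m)
      rwa [show i + m + 1 = i + 1 + m by ring] at this⟩
  have hcrd : ∀ k, cr (ed w k) e ≤ 0 → cr (ed w k) d ≤ 0 := by
    intro k h
    rw [hde, cr_smul_right]
    exact mul_nonpos_of_nonneg_of_nonpos hndp.le h
  -- the end at the side `b`
  have hend : ∀ m : ℕ, (∀ᶠ k in (F : Filter ℕ), (f k m).1 = b) →
      Tendsto (fun k => (P k).pos (f k m)) F (𝓝 W) →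
      Tendsto (fun k => (P k).dir (f k m)) F (𝓝 (rf (ed w b) e / ((‖ed w b‖ ^ 2 : ℝ) : ℂ))) →
      False := by
    intro m hm hp hdr
    have hbE : b ∉ E := by
      obtain ⟨k, hk⟩ := hm.exists
      rw [← hk]
      exact (hf k m).2
    have hAb := hb.resolve_left hbE
    refine h9 n w E W _ hAb F P (fun k => f k m) _ hclF
      (Eventually.of_forall fun k => hsurv m k) hp hdr ?_
    have hnb : 0 < ‖ed w b‖ := norm_pos_iff.mpr (hed b)
    refine ⟨‖d‖ * ‖ed w b‖ ^ 2, by positivity, ?_⟩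
    conv_lhs => rw [hde, rf_smul]
    have hnb' : ((‖ed w b‖ ^ 2 : ℝ) : ℂ) ≠ 0 := by
      exact_mod_cast (pow_pos hnb 2).ne'
    rw [Complex.ofReal_mul, mul_assoc, mul_div_cancel₀ _ hnb']
  have hrfσ : rf (ed w σ) e / ((‖ed w σ‖ ^ 2 : ℝ) : ℂ) = e := by
    have hns : 0 < ‖ed w σ‖ := norm_pos_iff.mpr (hed σ)
    have hns' : ((‖ed w σ‖ ^ 2 : ℝ) : ℂ) ≠ 0 := by
      exact_mod_cast (pow_pos hns 2).ne'
    have h1 : e = ((κ / ‖d‖ : ℝ) : ℂ) * ed w σ := by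
      rw [he, div_eq_iff hnd]
      push_cast
      rw [div_mul_eq_mul_div, div_mul_cancel₀ _ hnd]
      exact hd
    rw [h1, rf_smul, rf_self]
    field_simp
  obtain ⟨t1, ht1, hm1, hc1, hp1, hd1⟩ := h7 n w hn hw F P z (fun k => f k 1) k1
    (X + (τ : ℂ) * d) e hclF (by
      filter_upwards [hk1] with k hk
      have := (hf k 0).1
      rw [hf0 k] at this
      exact ⟨this, hk⟩) (hpos.mono_left hF) (hdir.mono_left hF)
  have hpt : ∀ (r t : ℝ), X + (r : ℂ) * d + (t : ℂ) * e = X + ((r + t / ‖d‖ : ℝ) : ℂ) * d := by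
    intro r t
    rw [he]
    push_cast
    ring
  rw [hpt] at hm1 hp1
  rcases hX k1 _ hm1 (hcrd k1 hc1) with h | ⟨h, hW⟩
  · rw [h, hrfσ] at hd1
    obtain ⟨t2, ht2, hm2, hc2, hp2, hd2⟩ := h7 n w hn hw F P (fun k => f k 1) (fun k => f k 2) k2
      _ e hclF (by
        filter_upwards [hk2] with k hk
        exact ⟨(hf k 1).1, hk⟩) hp1 hd1
    rw [hpt] at hm2 hp2
    rcases hX k2 _ hm2 (hcrd k2 hc2) with h' | ⟨h', hW⟩
    · obtain ⟨k, hk1', hk2'⟩ := (hk1.and hk2).exists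
      exact no_return (P k) (hf k 1).1 (by
        show (f k 1).1 = (f k (1 + 1)).1
        rw [hk1', h, ← h', ← hk2'])
    · rw [hW] at hp2
      rw [h'] at hd2
      exact hend 2 (by rw [← h']; exact hk2) hp2 hd2
  · rw [hW] at hp1
    rw [h] at hd1
    exact hend 1 (by rw [← h]; exact hk1) hp1 hd1

theorem rp (h0 : T_V0) (h1 : T_V1) (h7 : T_V7) (h8 : T_V8) (h9 : T_V9) (hx2 : T_X2) : T_RP := by
  intro n _ w E d s c hn hw hc
  have hed := (h1 n w hn hw).1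
  refine ⟨?_, ?_⟩
  · intro hd hb
    refine key h7 h8 h9 w E hn hw hed (w s) d (w (s + 1)) s (s + 1) c hc.ne' hd ?_ hb
    intro k τ hm hcr
    exact (hx2 n w hn hw d s k τ c hc hm hcr).1 hd
  · intro hd hb
    refine key h7 h8 h9 w E hn hw hed (w s) d (w (s - 1)) (s - 1) (s - 2) (-c) (by linarith [hc] : (-c : ℝ) < 0).ne ?_ ?_ hb
    · rw [hd]
      push_cast
      ring
    · intro k τ hm hcr
      exact (hx2 n w hn hw d s k τ c hc hm hcr).2 hd

end Pool.Agent.H62.BN
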