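import Pool.Agent.H79.BN.Targets
import Pool.Agent.H93.BL.Basic

/-!
# The contradiction from a chain of strips (row W11)
-/

open MeasureTheory Set Filter Topology Pool.Agent.H93.BL Pool.Agent.H79.BN

namespace Pool.Agent.H62.BN

theorem exists_diam {ι : Type} (P : Polygon ι) : ∃ M : ℝ, 0 < M ∧ ∀ z z', P.Phase z → P.Phase z' →
    dist (P.pos z) (P.pos z') ≤ M := by
  have h1 : Bornology.IsBounded (frontier P.Ω) := P.isBounded.closure.subset
    frontier_subset_closure
  obtain ⟨C, hC⟩ := Metric.isBounded_iff.mp h1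
  have h2 : ∀ z, P.Phase z → P.pos z ∈ frontier P.Ω := by
    intro z hz
    rw [P.frontier_eq]
    exact mem_iUnion.mpr ⟨z.1, openSegment_subset_segment _ _ _ (P.pos_mem hz)⟩
  exact ⟨max C 1, by positivity, fun z z' hz hz' => (hC (h2 z hz) (h2 z' hz')).trans
    (le_max_left _ _)⟩

theorem cr_dir {ι : Type} (P : Polygon ι) (i : ι) (s s' φ φ' : ℝ) :
    cr (P.dir (i, s, φ)) (P.dir (i, s', φ')) = Real.sin (φ' - φ) := by
  rw [cr_eq_im]
  have h1 : (starRingEnd ℂ) (P.n i) * P.n i = 1 := by
    rw [mul_comm, Complex.mul_conj, Complex.normSq_eq_norm_sq, P.norm_n]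
    norm_num
  have h2 : (starRingEnd ℂ) (P.dir (i, s, φ)) * P.dir (i, s', φ') =
      Complex.exp (((φ' - φ : ℝ) : ℂ) * Complex.I) := by
    unfold Polygon.dir
    rw [map_mul, ← Complex.exp_conj, map_mul, Complex.conj_ofReal, Complex.conj_I]
    have h3 : (starRingEnd ℂ) (P.n i) * Complex.exp ((φ : ℂ) * -Complex.I) *
        (P.n i * Complex.exp ((φ' : ℂ) * Complex.I)) =
        ((starRingEnd ℂ) (P.n i) * P.n i) *
          (Complex.exp ((φ : ℂ) * -Complex.I) * Complex.exp ((φ' : ℂ) * Complex.I)) := by ring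
    rw [h3, h1, one_mul, ← Complex.exp_add]
    congr 1
    push_cast
    ring
  rw [h2, Complex.exp_ofReal_mul_I_im]

theorem plen_nonneg {ι : Type} (P : Polygon ι) (f : ℕ → ι × ℝ × ℝ) (n : ℕ) : 0 ≤ plen P f n :=
  Finset.sum_nonneg fun _ _ => dist_nonneg

theorem w11 (h2 : T_W2) (h8 : T_W8) (h9 : T_W9) (h10 : T_W10) : T_W11 := by
  intro ι _ P i q a c0 Φ ha hc0 hvol hΦ
  obtain ⟨M, hM, hdiam⟩ := exists_diam P
  obtain ⟨D, m, θ, hD, hMD, hθ, hgap, hK, hhalf⟩ := h2 Φ (a * c0) (4 * M + 4) (4 * M) hvol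
    (by positivity) (by positivity)
  have hmem : ∀ k, θ (min k m) ∈ Φ := fun k => hθ _ (min_le_right _ _)
  choose κ hκ using fun k => (hΦ (θ (min k m)) (hmem k)).2.2
  choose f hf0 hf using fun k => hκ k q (by simpa using ha)
  have hphase : ∀ k n, P.Phase (f k n) := fun k n => (hf k n).1.1
  have hpos0 : ∀ k l, P.pos (f k 0) = P.pos (f l 0) := by
    intro k l
    rw [hf0, hf0]
    rfl
  have hex : ∃ n, D / 2 < plen P (f 0) n := h9 ι P (f 0) (fun n => (hf 0 n).1) (D / 2)
  classical
  set N := Nat.find hex with hN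
  have hN1 : D / 2 < plen P (f 0) N := Nat.find_spec hex
  have hN2 : ∀ n ≤ N, plen P (f 0) n ≤ D / 2 + M := by
    intro n hn
    rcases n with _ | n
    · simp only [plen, Finset.range_zero, Finset.sum_empty]
      positivity
    · have h3 : ¬ D / 2 < plen P (f 0) n := Nat.find_min hex (by omega)
      have h4 : plen P (f 0) (n + 1) = plen P (f 0) n +
          dist (P.pos (f 0 n)) (P.pos (f 0 (n + 1))) := Finset.sum_range_succ _ _
      have h5 := hdiam _ _ (hphase 0 n) (hphase 0 (n + 1))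
      rw [h4]
      linarith [not_lt.mp h3]
  have hcmp : ∀ k n, (∀ j ≤ n, (f k j).1 = (f 0 j).1) →
      ‖(plen P (f k) n : ℂ) * P.dir (f k 0) - (plen P (f 0) n : ℂ) * P.dir (f 0 0)‖ ≤ M := by
    intro k n h
    rw [h10 ι P (f k) (f 0) n (hpos0 k 0) (fun j _ => (hf k j).1) (fun j _ => (hf 0 j).1) h]
    exact hdiam _ _ (hphase k n) (hphase 0 n)
  have hnorm : ∀ k n, ‖(plen P (f k) n : ℂ) * P.dir (f k 0)‖ = plen P (f k) n := by
    intro k n
    rw [norm_mul, P.norm_dir, mul_one, Complex.norm_real, Real.norm_of_nonneg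
      (plen_nonneg P _ _)]
  have claim : ∀ k ≤ m, ∀ n ≤ N, (f k n).1 = (f 0 n).1 := by
    intro k
    induction k with
    | zero => intro _ n _; rfl
    | succ k ih =>
      intro hk n hn
      have ih' := ih (by omega)
      have hk1 : min k m = k := min_eq_left (by omega)
      have hk2 : min (k + 1) m = k + 1 := min_eq_left hk
      have hlen : ∀ n ≤ N, plen P (f k) n ≤ D := by
        intro n hn
        have h3 := hcmp k n (fun j hj => ih' j (hj.trans hn))
        have h4 := norm_sub_norm_le ((plen P (f k) n : ℂ) * P.dir (f k 0))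
          ((plen P (f 0) n : ℂ) * P.dir (f 0 0))
        rw [hnorm, hnorm] at h4
        have h5 := hN2 n hn
        linarith
      have hg := hgap k (by omega)
      have hcos := (hΦ (θ (k + 1)) (by rw [← hk2]; exact hmem (k + 1))).2.1
      have h6 := h8 ι P i q a (θ (k + 1)) (θ k) (κ (k + 1)) N (f k) ha
        (by
          intro r hr
          have := hκ (k + 1) r hr
          rwa [hk2] at this)
        (by
          have := hf0 k
          rwa [hk1] at this)
        (fun n => (hf k n).1)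
        (by
          intro n hn
          have h7 : |θ k - θ (k + 1)| = θ (k + 1) - θ k := by
            rw [abs_sub_comm, abs_of_pos (by linarith [hg.1])]
          rw [h7]
          calc plen P (f k) n * (θ (k + 1) - θ k) ≤ D * (θ (k + 1) - θ k) :=
                mul_le_mul_of_nonneg_right (hlen n hn) (by linarith [hg.1])
            _ = (θ (k + 1) - θ k) * D := by ring
            _ < a * c0 := hg.2
            _ ≤ a * Real.cos (θ (k + 1)) := mul_le_mul_of_nonneg_left hcos.le ha.le)
      have h8' := h6 n hn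
      rw [(hf (k + 1) n).2, ← h8']
      exact ih' n hn
  have hfin := hcmp m N (claim m le_rfl)
  have h0 : min 0 m = 0 := Nat.zero_min m
  have hm' : min m m = m := min_self m
  have hx : 0 < θ m - θ 0 := by
    by_contra hx
    have : (θ m - θ 0) * D ≤ 0 := mul_nonpos_of_nonpos_of_nonneg (not_lt.mp hx) hD.le
    linarith
  have hcr : cr ((plen P (f m) N : ℂ) * P.dir (f m 0) - (plen P (f 0) N : ℂ) * P.dir (f 0 0))
      (P.dir (f m 0)) = - (plen P (f 0) N * Real.sin (θ m - θ 0)) := by
    rw [cr_sub_left, cr_smul_left, cr_smul_left, cr_self, hf0, hf0, h0, hm', cr_dir]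
    ring
  have habs := abs_cr_le ((plen P (f m) N : ℂ) * P.dir (f m 0) -
    (plen P (f 0) N : ℂ) * P.dir (f 0 0)) (P.dir (f m 0))
  rw [P.norm_dir, mul_one, hcr, abs_neg] at habs
  have hsin : (θ m - θ 0) / 2 ≤ Real.sin (θ m - θ 0) := by
    have h3 := Real.sin_gt_sub_cube hx
    have h4 : (θ m - θ 0) ^ 3 ≤ (θ m - θ 0) := by
      calc (θ m - θ 0) ^ 3 ≤ (θ m - θ 0) ^ 1 :=
            pow_le_pow_of_le_one hx.le (by linarith) (by norm_num)
        _ = _ := pow_one _
    linarith
  have h5 := (le_abs_self _).trans (habs.trans hfin)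
  have h6 : (D / 2) * ((θ m - θ 0) / 2) ≤ plen P (f 0) N * Real.sin (θ m - θ 0) :=
    mul_le_mul hN1.le hsin (by linarith) (plen_nonneg P _ _)
  nlinarith

end Pool.Agent.H62.BN
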